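import Pool.Agent.Helper60.PlzA.Goals

/-!
# PLA BONE: the sum of the squares of the codegrees of nonadjacent pairs
-/

set_option autoImplicit false

namespace Pool.Agent.Helper51.PlzA

open Finset Pool.Agent.Helper93.Plz Pool.Agent.Helper60.PlzA

open scoped Classical

theorem cod_le_dgr {V : Type} [Fintype V] (G : SimpleGraph V) (a b : V) :
    cod G a b ≤ dgr G a := by
  unfold cod dgr cmn nbs
  apply Finset.card_le_card
  intro w hw
  simp only [Finset.mem_filter, Finset.mem_univ, true_and] at hw ⊢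
  exact hw.1

theorem sum_cod {V : Type} [Fintype V] (G : SimpleGraph V) (t : ℕ) (hd : ∀ v, dgr G v ≤ t)
    (a : V) : ∑ b, (cod G a b : ℝ) ≤ (t : ℝ) ^ 2 := by
  have h1 : ∀ b, (cod G a b : ℝ) = ∑ w, (if G.Adj a w ∧ G.Adj b w then (1 : ℝ) else 0) := by
    intro b
    unfold cod cmn
    rw [Finset.sum_ite, Finset.sum_const_zero, add_zero, Finset.sum_const, nsmul_eq_mul, mul_one]
  have h2 : ∀ w, ∑ b, (if G.Adj a w ∧ G.Adj b w then (1 : ℝ) else 0) ≤
      (if G.Adj a w then (t : ℝ) else 0) := by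
    intro w
    by_cases h : G.Adj a w
    · rw [if_pos h]
      have h3 : ∑ b, (if G.Adj a w ∧ G.Adj b w then (1 : ℝ) else 0) = (dgr G w : ℝ) := by
        unfold dgr nbs
        rw [Finset.sum_ite, Finset.sum_const_zero, add_zero, Finset.sum_const, nsmul_eq_mul,
          mul_one]
        congr 2
        ext b
        simp only [Finset.mem_filter, Finset.mem_univ, true_and]
        exact ⟨fun hh => hh.2.symm, fun hh => ⟨h, hh.symm⟩⟩
      rw [h3]
      exact_mod_cast hd w
    · rw [if_neg h]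
      apply le_of_eq
      apply Finset.sum_eq_zero
      intro b _
      rw [if_neg (fun hh => h hh.1)]
  calc ∑ b, (cod G a b : ℝ) = ∑ b, ∑ w, (if G.Adj a w ∧ G.Adj b w then (1 : ℝ) else 0) :=
        Finset.sum_congr rfl fun b _ => h1 b
    _ = ∑ w, ∑ b, (if G.Adj a w ∧ G.Adj b w then (1 : ℝ) else 0) := Finset.sum_comm
    _ ≤ ∑ w, (if G.Adj a w then (t : ℝ) else 0) := Finset.sum_le_sum fun w _ => h2 w
    _ = (dgr G a : ℝ) * t := by
        unfold dgr nbs
        rw [Finset.sum_ite, Finset.sum_const_zero, add_zero, Finset.sum_const, nsmul_eq_mul]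
    _ ≤ (t : ℝ) * t := by
        apply mul_le_mul_of_nonneg_right
        · exact_mod_cast hd a
        · positivity
    _ = (t : ℝ) ^ 2 := by ring

theorem bone : S_BONE := by
  intro V _ G t γ H
  have ht : ∀ v, dgr G v ≤ t := H.deg
  have hγt : 0 ≤ γ * t := le_trans zero_le_one H.one
  have hterm : ∀ a b : V, (if a ≠ b ∧ ¬ G.Adj a b then (cod G a b : ℝ) ^ 2 else 0) ≤
      (t : ℝ) ^ 2 * (if (a, b) ∈ bad G t γ then 1 else 0) + γ * t * cod G a b := by
    intro a b
    have hc0 : (0 : ℝ) ≤ cod G a b := Nat.cast_nonneg _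
    have hct : (cod G a b : ℝ) ≤ t := by exact_mod_cast (cod_le_dgr G a b).trans (ht a)
    by_cases h : a ≠ b ∧ ¬ G.Adj a b
    · rw [if_pos h]
      by_cases h2 : (a, b) ∈ bad G t γ
      · rw [if_pos h2]
        have h3 : (cod G a b : ℝ) ^ 2 ≤ (t : ℝ) ^ 2 := pow_le_pow_left₀ hc0 hct 2
        have h4 : 0 ≤ γ * t * cod G a b := mul_nonneg hγt hc0
        linarith
      · rw [if_neg h2]
        have h3 : (cod G a b : ℝ) ≤ γ * t := by
          by_contra hcon
          push Not at hcon
          apply h2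
          unfold bad
          simp only [Finset.mem_filter, Finset.mem_univ, true_and]
          exact ⟨h.1, h.2, hcon.le⟩
        have h4 : (cod G a b : ℝ) ^ 2 ≤ γ * t * cod G a b := by
          rw [pow_two]
          exact mul_le_mul_of_nonneg_right h3 hc0
        linarith
    · rw [if_neg h]
      have h4 : 0 ≤ γ * t * cod G a b := mul_nonneg hγt hc0
      have h5 : (0 : ℝ) ≤ (t : ℝ) ^ 2 * (if (a, b) ∈ bad G t γ then 1 else 0) := by
        split_ifs <;> positivity
      linarith
  have hbad : ∑ a : V, ∑ b : V, (if (a, b) ∈ bad G t γ then (1 : ℝ) else 0) =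
      ((bad G t γ).card : ℝ) := by
    rw [← Finset.sum_product']
    rw [Finset.sum_ite, Finset.sum_const_zero, add_zero, Finset.sum_const, nsmul_eq_mul, mul_one]
    congr 2
    ext p
    simp
  calc ∑ a, ∑ b, (if a ≠ b ∧ ¬ G.Adj a b then (cod G a b : ℝ) ^ 2 else 0)
      ≤ ∑ a, ∑ b, ((t : ℝ) ^ 2 * (if (a, b) ∈ bad G t γ then 1 else 0) + γ * t * cod G a b) :=
        Finset.sum_le_sum fun a _ => Finset.sum_le_sum fun b _ => hterm a b
    _ = (t : ℝ) ^ 2 * (∑ a : V, ∑ b : V, (if (a, b) ∈ bad G t γ then (1 : ℝ) else 0)) +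
        γ * t * ∑ a, ∑ b, (cod G a b : ℝ) := by
        simp only [Finset.sum_add_distrib, Finset.mul_sum]
    _ ≤ (t : ℝ) ^ 2 * (γ * t * Fintype.card V) + γ * t * (Fintype.card V * (t : ℝ) ^ 2) := by
        rw [hbad]
        apply add_le_add
        · exact mul_le_mul_of_nonneg_left H.few (by positivity)
        · apply mul_le_mul_of_nonneg_left _ hγt
          calc ∑ a, ∑ b, (cod G a b : ℝ) ≤ ∑ _a : V, (t : ℝ) ^ 2 :=
                Finset.sum_le_sum fun a _ => sum_cod G t ht a
            _ = Fintype.card V * (t : ℝ) ^ 2 := by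
                rw [Finset.sum_const, Finset.card_univ, nsmul_eq_mul]
    _ = 2 * γ * Fintype.card V * (t : ℝ) ^ 3 := by ring

end Pool.Agent.Helper51.PlzA
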